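import Pool.Agent.Helper31.RG.Main

open Pool.Agent.Helper65.LinSpace Pool.Agent.Helper95.BG Pool.Agent.Helper31.RG

namespace Pool.Agent.Results.MP_c578c8_lc.RangeConcatenationGrammars

/-- **Linear range concatenation grammars with negation do not generate all of linear space.** For
every number `c` there are a language `L` in `DSPACE(n)` and masks `s n` of length `n` such that `L`
consists of the words `w` whose inner product with `s |w|` is odd, and the following holds for every
`k ≥ 1` and every language `K` over a finite alphabet which is generated by a linear negative range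
concatenation grammar of arity at most `k` (in the well-founded semantics or in the semantics of the
unique solution in the strong sense) or, if `k = 1`, by a Boolean grammar: for all letters `ι 0`,
`ι 1`, and every function `f` which is computable in space `C (n + 1) ^ (1 - ε)` and has values of
length `|f w y| ≤ C (|w| + |y| + 1) ^ (1 + 1 / (2 k) - ε)`, `ε > 0`, there is a `c'` such that for
all `n` and all advice words `α`, the number of the words `w` of length `n` for which `w ∈ L` is
equivalent to `ι(w) f(w, α v) ∈ K` for some guess `v` of length at most `c n` differs from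
`2 ^ n / 2` by at most `c' (min (|α|, n - |α|) + 1) 2 ^ ((n + |α|) / 2)`. In particular (`f` the
empty word) `L` is not generated by such a grammar of any arity. -/
theorem result (c : ℕ) :
    ∃ (L : Set (List Bool)) (s : ℕ → List Bool), DLINSPACE L ∧ (∀ n, (s n).length = n) ∧
      (∀ w, w ∈ L ↔ Odd ((List.zipWith and (s w.length) w).count true)) ∧
      ∀ (T : Type) [Finite T] (k : ℕ) (K : Language T), 0 < k →
        ((∃ G : Grammar T, G.Linear k ∧
            (G.Generates K ∨ K = {w | [w] ∈ G.wellFounded G.start})) ∨
          (k = 1 ∧ ∃ G : BooleanGrammar T, G.Generates K ∨ K = G.wellFounded G.start)) →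
        ∀ (ι : Bool → T) (f : List Bool → List Bool → List T) (C ε : ℝ), 0 < ε →
        Computable (fun n => C * ((n : ℝ) + 1) ^ (1 - ε)) f →
        (∀ w y, ((f w y).length : ℝ) ≤
          C * ((w.length : ℝ) + y.length + 1) ^ (1 + 1 / (2 * (k : ℝ)) - ε)) →
        ∃ c' : ℝ, ∀ (n : ℕ) (α : List Bool),
          |({w : List Bool | w.length = n ∧ (w ∈ L ↔ ∃ v : List Bool, v.length ≤ c * n ∧
            w.map ι ++ f w (α ++ v) ∈ K)}.ncard : ℝ) - 2 ^ n / 2| ≤
            c' * ((min α.length (n - α.length) : ℕ) + 1) * 2 ^ (((n : ℝ) + α.length) / 2) :=
  main c

end Pool.Agent.Results.MP_c578c8_lc.RangeConcatenationGrammars
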